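import Mathlib
import Pool.Agent.Q75.CrC

/-!
# Critical sets of iterates of meromorphic self-maps (MP_0e2c99_an)

Let `X` be a compact complex manifold of dimension `k` and `f : X ⇢ X` a dominant meromorphic map
with graph `Γ_f`. The critical set `C_f` is the set of points of `Γ_f` that are not isolated in
their fibre of the second projection. We prove: if `π₁(C_f)` has codimension `≥ p` then
`π₁(C_{fⁿ})` has codimension `≥ p` for every `n ≥ 1`.
-/

namespace Pool.Agent.Results.MP_0e2c99_an.CriticalSets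

open Set Filter Topology Manifold
open scoped ContDiff ENNReal NNReal

/-- A subset `A` of a complex manifold `M` is analytic if every point of `M` has an open
neighbourhood in which `A` is the common zero set of finitely many holomorphic functions. -/
def IsAnalyticSubset {E : Type*} [NormedAddCommGroup E] [NormedSpace ℂ E] {H : Type*}
    [TopologicalSpace H] (I : ModelWithCorners ℂ E H) {M : Type*} [TopologicalSpace M]
    [ChartedSpace H M] (A : Set M) : Prop :=
  ∀ a : M, ∃ V : Set M, IsOpen V ∧ a ∈ V ∧ ∃ (r : ℕ) (u : Fin r → M → ℂ),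
    (∀ i, ContMDiffOn I 𝓘(ℂ) ω (u i) V) ∧ A ∩ V = {q | q ∈ V ∧ ∀ i, u i q = 0}

section defs

variable {k : ℕ} {X : Type*} [TopologicalSpace X] [ChartedSpace (EuclideanSpace ℂ (Fin k)) X]

variable (k X) in
/-- A dominant meromorphic map `f : X ⇢ X`, given by a dense open set on which it is holomorphic.
The closure of the graph over this set is required to be an analytic subset of `X × X`, and
dominance says that the image of every nonempty open subset of the domain has interior points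
(generically maximal rank `k`). -/
structure DominantMeromorphic where
  /-- a dense open set on which the map is defined and holomorphic -/
  dom : Set X
  /-- the map (its values outside `dom` play no role) -/
  toFun : X → X
  isOpen_dom : IsOpen dom
  dense_dom : Dense dom
  holo : ContMDiffOn 𝓘(ℂ, EuclideanSpace ℂ (Fin k)) 𝓘(ℂ, EuclideanSpace ℂ (Fin k)) ω toFun dom
  analytic : IsAnalyticSubset
    ((𝓘(ℂ, EuclideanSpace ℂ (Fin k))).prod 𝓘(ℂ, EuclideanSpace ℂ (Fin k)))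
    (closure {q : X × X | q.1 ∈ dom ∧ q.2 = toFun q.1})
  dominant : ∀ O : Set X, IsOpen O → O.Nonempty → O ⊆ dom → (interior (toFun '' O)).Nonempty

/-- The set of points whose first `n` iterates are defined, i.e. the points `x` with
`x, f x, …, f^{n-1} x` in the domain of `f`. -/
def DominantMeromorphic.iterDom (f : DominantMeromorphic k X) (n : ℕ) : Set X :=
  {x | ∀ j < n, f.toFun^[j] x ∈ f.dom}

/-- The graph of the meromorphic map `fⁿ` : the closure of the graph of `fⁿ` over the (dense open)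
set of points whose first `n` iterates are defined. For `n = 1` this is the graph of `f`. -/
def DominantMeromorphic.graph (f : DominantMeromorphic k X) (n : ℕ) : Set (X × X) :=
  closure {q : X × X | q.1 ∈ f.iterDom n ∧ q.2 = f.toFun^[n] q.1}

/-- The critical set of (the map with) graph `Γ`: the points of `Γ` that are not isolated in their
fibre of the second projection `π₂ : Γ → X`. It is the smallest closed set `C` such that the fibres
of `π₂` restricted to `Γ \ C` are zero-dimensional (`critSet_spec` below); by the Cartan–Remmert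
theorem it is analytic, so it is the smallest analytic subset with this property. -/
def critSet (Γ : Set (X × X)) : Set (X × X) :=
  {a | a ∈ Γ ∧ AccPt a (𝓟 (Γ ∩ Prod.snd ⁻¹' {a.2}))}

variable (k) in
/-- `A ⊆ X` has (complex) codimension at least `p` in the `k`-dimensional complex manifold `X`:
in every chart the Hausdorff dimension of `A` is at most `2 (k - p)`. -/
def CodimGE (A : Set X) (p : ℕ) : Prop :=
  ∀ x : X, dimH (chartAt (EuclideanSpace ℂ (Fin k)) x ''
    (A ∩ (chartAt (EuclideanSpace ℂ (Fin k)) x).source)) + 2 * (p : ℝ≥0∞) ≤ 2 * (k : ℝ≥0∞)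

end defs

section proofs

variable {k : ℕ} {X : Type*} [TopologicalSpace X] [ChartedSpace (EuclideanSpace ℂ (Fin k)) X]

omit [ChartedSpace (EuclideanSpace ℂ (Fin k)) X] in
/-- `critSet Γ` is the smallest among the closed sets `C` such that all fibres of `π₂` restricted to
`Γ \ C` are discrete, and it has this property itself. (It is an analytic set by the
Cartan–Remmert theorem, which is not needed here.) -/
lemma critSet_spec (Γ : Set (X × X)) :
    (∀ a ∈ Γ \ critSet Γ, ¬ AccPt a (𝓟 ((Γ \ critSet Γ) ∩ Prod.snd ⁻¹' {a.2}))) ∧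
    ∀ C : Set (X × X), IsClosed C →
      (∀ a ∈ Γ \ C, ¬ AccPt a (𝓟 ((Γ \ C) ∩ Prod.snd ⁻¹' {a.2}))) → critSet Γ ⊆ C := by
  constructor
  · rintro a ⟨ha, hna⟩ hacc
    exact hna ⟨ha, hacc.mono (principal_mono.2 (inter_subset_inter_left _ diff_subset))⟩
  · intro C hC h a ha
    by_contra haC
    apply h a ⟨ha.1, haC⟩
    have h1 := ha.2
    rw [accPt_iff_frequently] at h1 ⊢
    refine (h1.and_eventually (hC.isOpen_compl.mem_nhds haC)).mono ?_
    rintro b ⟨⟨hb1, hb2, hb3⟩, hb4⟩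
    exact ⟨hb1, ⟨hb2, hb4⟩, hb3⟩

/-- Dimension of the part over `Z` of an analytic set, away from the critical set. -/
lemma global_dim [SecondCountableTopology X] [IsManifold 𝓘(ℂ, (EuclideanSpace ℂ (Fin k))) ω X]
    {Γ : Set (X × X)} (hΓ : IsAnalyticSubset ((𝓘(ℂ, (EuclideanSpace ℂ (Fin k)))).prod 𝓘(ℂ, (EuclideanSpace ℂ (Fin k)))) Γ) {Z : Set X} {d : ℝ≥0∞}
    (hZ : ∀ x : X, dimH (chartAt (EuclideanSpace ℂ (Fin k)) x '' (Z ∩ (chartAt (EuclideanSpace ℂ (Fin k)) x).source)) ≤ d) (x : X) :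
    dimH (chartAt (EuclideanSpace ℂ (Fin k)) x '' ((Prod.fst '' {a : X × X | a ∈ Γ ∧
      ¬ AccPt a (𝓟 (Γ ∩ Prod.snd ⁻¹' {a.2})) ∧ a.2 ∈ Z}) ∩ (chartAt (EuclideanSpace ℂ (Fin k)) x).source)) ≤ d := by
  choose V hVo haV r u hu hA using hΓ
  set V' : X × X → Set (X × X) := fun a =>
    V a ∩ ((chartAt (EuclideanSpace ℂ (Fin k)) a.1).source ×ˢ (chartAt (EuclideanSpace ℂ (Fin k)) a.2).source) with hV'
  have hV'n : ∀ a, V' a ∈ 𝓝 a := by
    intro a
    refine inter_mem ((hVo a).mem_nhds (haV a)) ?_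
    exact ((chartAt (EuclideanSpace ℂ (Fin k)) a.1).open_source.prod (chartAt (EuclideanSpace ℂ (Fin k)) a.2).open_source).mem_nhds
      ⟨mem_chart_source (EuclideanSpace ℂ (Fin k)) a.1, mem_chart_source (EuclideanSpace ℂ (Fin k)) a.2⟩
  obtain ⟨s, hs, hcov⟩ := TopologicalSpace.countable_cover_nhds hV'n
  set N : Set (X × X) := {a : X × X | a ∈ Γ ∧
      ¬ AccPt a (𝓟 (Γ ∩ Prod.snd ⁻¹' {a.2})) ∧ a.2 ∈ Z} with hN
  have hsub : chartAt (EuclideanSpace ℂ (Fin k)) x '' ((Prod.fst '' N) ∩ (chartAt (EuclideanSpace ℂ (Fin k)) x).source) ⊆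
      ⋃ a ∈ s, chartAt (EuclideanSpace ℂ (Fin k)) x '' ((Prod.fst '' (N ∩ V' a)) ∩ (chartAt (EuclideanSpace ℂ (Fin k)) x).source) := by
    rintro _ ⟨_, ⟨⟨b, hb, rfl⟩, hbx⟩, rfl⟩
    have h1 : b ∈ ⋃ a ∈ s, V' a := by rw [hcov]; trivial
    rw [mem_iUnion₂] at h1 ⊢
    obtain ⟨a, ha, hba⟩ := h1
    exact ⟨a, ha, b.1, ⟨⟨b, ⟨hb, hba⟩, rfl⟩, hbx⟩, rfl⟩
  refine (dimH_mono hsub).trans ?_
  rw [dimH_bUnion hs]
  refine iSup₂_le fun a _ => ?_
  -- local coordinates
  set φ := chartAt (EuclideanSpace ℂ (Fin k)) a.1 with hφ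
  set ψ := chartAt (EuclideanSpace ℂ (Fin k)) a.2 with hψ
  set e := chartAt (EuclideanSpace ℂ (Fin k)) x with he
  set Φ : (EuclideanSpace ℂ (Fin k)) × (EuclideanSpace ℂ (Fin k)) → X × X := fun p => (φ.symm p.1, ψ.symm p.2) with hΦ
  have hΦsm : ContMDiffOn 𝓘(ℂ, (EuclideanSpace ℂ (Fin k)) × (EuclideanSpace ℂ (Fin k))) ((𝓘(ℂ, (EuclideanSpace ℂ (Fin k)))).prod 𝓘(ℂ, (EuclideanSpace ℂ (Fin k)))) ω Φ (φ.target ×ˢ ψ.target) := by
    have h1 : ContMDiffOn 𝓘(ℂ, (EuclideanSpace ℂ (Fin k)) × (EuclideanSpace ℂ (Fin k))) 𝓘(ℂ, (EuclideanSpace ℂ (Fin k))) ω (fun p : (EuclideanSpace ℂ (Fin k)) × (EuclideanSpace ℂ (Fin k)) => φ.symm p.1)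
        (φ.target ×ˢ ψ.target) := by
      refine (contMDiffOn_chart_symm (I := 𝓘(ℂ, (EuclideanSpace ℂ (Fin k)))) (x := a.1) (n := ω)).comp
        (t := φ.target) (f := Prod.fst) ?_ ?_
      · exact (contDiff_fst (𝕜 := ℂ) (E := (EuclideanSpace ℂ (Fin k))) (F := (EuclideanSpace ℂ (Fin k))) (n := ω)).contMDiff.contMDiffOn
      · intro p hp
        exact hp.1
    have h2 : ContMDiffOn 𝓘(ℂ, (EuclideanSpace ℂ (Fin k)) × (EuclideanSpace ℂ (Fin k))) 𝓘(ℂ, (EuclideanSpace ℂ (Fin k))) ω (fun p : (EuclideanSpace ℂ (Fin k)) × (EuclideanSpace ℂ (Fin k)) => ψ.symm p.2)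
        (φ.target ×ˢ ψ.target) := by
      refine (contMDiffOn_chart_symm (I := 𝓘(ℂ, (EuclideanSpace ℂ (Fin k)))) (x := a.2) (n := ω)).comp
        (t := ψ.target) (f := Prod.snd) ?_ ?_
      · exact (contDiff_snd (𝕜 := ℂ) (E := (EuclideanSpace ℂ (Fin k))) (F := (EuclideanSpace ℂ (Fin k))) (n := ω)).contMDiff.contMDiffOn
      · intro p hp
        exact hp.2
    exact h1.prodMk h2
  have hΦc : ContinuousOn Φ (φ.target ×ˢ ψ.target) := hΦsm.continuousOn
  have hTo : IsOpen (φ.target ×ˢ ψ.target) := φ.open_target.prod ψ.open_target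
  set W : Set ((EuclideanSpace ℂ (Fin k)) × (EuclideanSpace ℂ (Fin k))) := (φ.target ×ˢ ψ.target) ∩ Φ ⁻¹' (V a) with hW
  have hWo : IsOpen W := hΦc.isOpen_inter_preimage hTo (hVo a)
  have hUan : ∀ i, AnalyticOnNhd ℂ (fun p => u a i (Φ p)) W := by
    intro i
    have h1 : ContMDiffOn 𝓘(ℂ, (EuclideanSpace ℂ (Fin k)) × (EuclideanSpace ℂ (Fin k))) 𝓘(ℂ) ω (fun p => u a i (Φ p)) W :=
      (hu a i).comp (hΦsm.mono inter_subset_left) inter_subset_right
    have h2 : ContDiffOn ℂ ω (fun p => u a i (Φ p)) W := contMDiffOn_iff_contDiffOn.1 h1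
    rw [contDiffOn_omega_iff_analyticOn hWo.uniqueDiffOn] at h2
    exact hWo.analyticOn_iff_analyticOnNhd.1 h2
  have hloc := Pool.Agent.Q75.Cr.local_dim (r := r a) (n := k) hWo (U := fun i p => u a i (Φ p))
    hUan (ψ '' (Z ∩ ψ.source))
  set S : Set ((EuclideanSpace ℂ (Fin k)) × (EuclideanSpace ℂ (Fin k))) := {p : (EuclideanSpace ℂ (Fin k)) × (EuclideanSpace ℂ (Fin k)) | p ∈ W ∧ (∀ i, u a i (Φ p) = 0) ∧
      (∀ᶠ y in 𝓝[≠] p.1, ¬ ∀ i, u a i (Φ (y, p.2)) = 0) ∧ p.2 ∈ ψ '' (Z ∩ ψ.source)} with hS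
  -- the coordinates of the points of `N ∩ V' a` lie in `S`
  have hmem : ∀ b ∈ N ∩ V' a, (φ b.1, ψ b.2) ∈ S := by
    rintro ⟨b1, b2⟩ ⟨⟨hbΓ, hbacc, hbZ⟩, hbV, hb1, hb2⟩
    simp only at hb1 hb2 hbZ hbacc
    have hΦb : Φ (φ b1, ψ b2) = (b1, b2) := by
      simp only [hΦ]
      rw [φ.left_inv hb1, ψ.left_inv hb2]
    have hWb : (φ b1, ψ b2) ∈ W := by
      refine ⟨⟨φ.map_source hb1, ψ.map_source hb2⟩, ?_⟩
      rw [mem_preimage, hΦb]
      exact hbV
    refine ⟨hWb, ?_, ?_, ?_⟩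
    · intro i
      have h1 : (b1, b2) ∈ Γ ∩ V a := ⟨hbΓ, hbV⟩
      rw [hA a] at h1
      rw [hΦb]
      exact h1.2 i
    · -- isolated
      by_contra hcon
      rw [not_eventually] at hcon
      simp only [not_not] at hcon
      apply hbacc
      rw [accPt_iff_frequently]
      have htend : Tendsto (fun y : (EuclideanSpace ℂ (Fin k)) => Φ (y, ψ b2)) (𝓝[≠] (φ b1)) (𝓝 (b1, b2)) := by
        have h1 : ContinuousAt Φ (φ b1, ψ b2) :=
          hΦc.continuousAt (hTo.mem_nhds hWb.1)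
        have h2 : ContinuousAt (fun y : (EuclideanSpace ℂ (Fin k)) => (y, ψ b2)) (φ b1) := by fun_prop
        have h3 : ContinuousAt (fun y : (EuclideanSpace ℂ (Fin k)) => Φ (y, ψ b2)) (φ b1) :=
          ContinuousAt.comp (f := fun y : (EuclideanSpace ℂ (Fin k)) => (y, ψ b2)) h1 h2
        have h4 := h3.tendsto
        rw [hΦb] at h4
        exact h4.mono_left nhdsWithin_le_nhds
      have hWn : ∀ᶠ y in 𝓝[≠] (φ b1), (y, ψ b2) ∈ W := by
        have h2 : ContinuousAt (fun y : (EuclideanSpace ℂ (Fin k)) => (y, ψ b2)) (φ b1) := by fun_prop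
        exact (h2.eventually (hWo.mem_nhds hWb)).filter_mono nhdsWithin_le_nhds
      have hne : ∀ᶠ y in 𝓝[≠] (φ b1), y ≠ φ b1 := self_mem_nhdsWithin
      refine htend.frequently ((hcon.and_eventually (hWn.and hne)).mono ?_)
      rintro y ⟨hy0, hyW, hyne⟩
      refine ⟨?_, ?_, ?_⟩
      · intro heq
        apply hyne
        have h1 : φ.symm y = b1 := (Prod.ext_iff.1 heq).1
        have h2 : y ∈ φ.target := hyW.1.1
        rw [← φ.right_inv h2, h1]
      · have h1 : Φ (y, ψ b2) ∈ {q | q ∈ V a ∧ ∀ i, u a i q = 0} := ⟨hyW.2, hy0⟩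
        rw [← hA a] at h1
        exact h1.1
      · simp only [hΦ, mem_preimage, mem_singleton_iff]
        exact ψ.left_inv hb2
    · exact ⟨b2, ⟨hbZ, hb2⟩, rfl⟩
  -- the image in the first factor
  have himg : dimH (φ '' (Prod.fst '' (N ∩ V' a) ∩ e.source)) ≤ d := by
    have h1 : φ '' (Prod.fst '' (N ∩ V' a) ∩ e.source) ⊆ Prod.fst '' S := by
      rintro _ ⟨_, ⟨⟨b, hb, rfl⟩, _⟩, rfl⟩
      exact ⟨_, hmem b hb, rfl⟩
    calc dimH (φ '' (Prod.fst '' (N ∩ V' a) ∩ e.source)) ≤ dimH (Prod.fst '' S) := dimH_mono h1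
      _ ≤ dimH S := LipschitzWith.prod_fst.dimH_image_le S
      _ ≤ dimH (ψ '' (Z ∩ ψ.source)) := hloc
      _ ≤ d := hZ a.2
  -- change of chart
  have hchg : e '' (Prod.fst '' (N ∩ V' a) ∩ e.source) =
      (e ∘ φ.symm) '' (φ '' (Prod.fst '' (N ∩ V' a) ∩ e.source)) := by
    rw [image_comp, image_image φ.symm]
    congr 1
    symm
    refine (image_congr ?_).trans (image_id _)
    rintro _ ⟨⟨b, hb, rfl⟩, _⟩
    exact φ.left_inv hb.2.2.1
  rw [hchg]
  refine le_trans (dimH_image_le_of_locally_lipschitzOn ?_) himg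
  rintro _ ⟨_, ⟨⟨b, hb, rfl⟩, hbe⟩, rfl⟩
  have hb1 : b.1 ∈ φ.source := hb.2.2.1
  have hchart : ContMDiffOn 𝓘(ℂ, (EuclideanSpace ℂ (Fin k))) 𝓘(ℂ, (EuclideanSpace ℂ (Fin k))) ω (e ∘ φ.symm) (φ.target ∩ φ.symm ⁻¹' e.source) :=
    (contMDiffOn_chart (I := 𝓘(ℂ, (EuclideanSpace ℂ (Fin k)))) (x := x) (n := ω)).comp
      ((contMDiffOn_chart_symm (I := 𝓘(ℂ, (EuclideanSpace ℂ (Fin k)))) (x := a.1) (n := ω)).mono inter_subset_left)
      inter_subset_right
  have hopen : IsOpen (φ.target ∩ φ.symm ⁻¹' e.source) :=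
    φ.symm.isOpen_inter_preimage e.open_source
  have hpt : φ b.1 ∈ φ.target ∩ φ.symm ⁻¹' e.source := by
    refine ⟨φ.map_source hb1, ?_⟩
    rw [mem_preimage, φ.left_inv hb1]
    exact hbe
  have hcd : ContDiffAt ℂ 1 (e ∘ φ.symm) (φ b.1) :=
    ((contMDiffOn_iff_contDiffOn.1 hchart).contDiffAt (hopen.mem_nhds hpt)).of_le le_top
  obtain ⟨K, t, ht, hK⟩ := hcd.exists_lipschitzOnWith
  exact ⟨K, t, mem_nhdsWithin_of_mem_nhds ht, hK⟩

/-- The graph of `f^{n+1}` is contained in the composition of the graphs of `f` and `fⁿ`. -/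
lemma graph_succ [CompactSpace X] [T2Space X] (f : DominantMeromorphic k X) (n : ℕ) :
    f.graph (n + 1) ⊆ {q : X × X | ∃ y, (q.1, y) ∈ f.graph 1 ∧ (y, q.2) ∈ f.graph n} := by
  have hcl : IsClosed {q : X × X | ∃ y, (q.1, y) ∈ f.graph 1 ∧ (y, q.2) ∈ f.graph n} := by
    have h1 : IsClosed {t : X × (X × X) | (t.2.1, t.1) ∈ f.graph 1 ∧ (t.1, t.2.2) ∈ f.graph n} := by
      apply IsClosed.inter
      · exact isClosed_closure.preimage (by fun_prop : Continuous fun t : X × (X × X) => (t.2.1, t.1))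
      · exact isClosed_closure.preimage (by fun_prop : Continuous fun t : X × (X × X) => (t.1, t.2.2))
    have h2 := isClosedMap_snd_of_compactSpace (X := X) (Y := X × X) _ h1
    have h3 : {q : X × X | ∃ y, (q.1, y) ∈ f.graph 1 ∧ (y, q.2) ∈ f.graph n} =
        Prod.snd '' {t : X × (X × X) | (t.2.1, t.1) ∈ f.graph 1 ∧ (t.1, t.2.2) ∈ f.graph n} := by
      ext q
      constructor
      · rintro ⟨y, hy⟩
        exact ⟨(y, q), hy, rfl⟩
      · rintro ⟨t, ht, rfl⟩
        exact ⟨t.1, ht⟩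
    rw [h3]
    exact h2
  refine closure_minimal ?_ hcl
  rintro ⟨x, z⟩ ⟨hx, hz⟩
  simp only at hx hz
  refine ⟨f.toFun x, subset_closure ⟨?_, ?_⟩, subset_closure ⟨?_, ?_⟩⟩
  · intro j hj
    have : j = 0 := by omega
    subst this
    exact hx 0 (by omega)
  · rfl
  · intro j hj
    have := hx (j + 1) (by omega)
    rwa [Function.iterate_succ_apply] at this
  · show z = f.toFun^[n] (f.toFun x)
    rw [hz, Function.iterate_succ_apply]

/-- The key inclusion. -/
lemma crit_succ [CompactSpace X] [T2Space X] (f : DominantMeromorphic k X) (n : ℕ) :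
    Prod.fst '' critSet (f.graph (n + 1)) ⊆ Prod.fst '' critSet (f.graph 1) ∪
      Prod.fst '' {a : X × X | a ∈ f.graph 1 ∧
        ¬ AccPt a (𝓟 (f.graph 1 ∩ Prod.snd ⁻¹' {a.2})) ∧
        a.2 ∈ Prod.fst '' critSet (f.graph n)} := by
  rintro _ ⟨⟨x, z⟩, ⟨hΓ, hacc⟩, rfl⟩
  simp only at hacc ⊢
  by_cases hx : x ∈ Prod.fst '' critSet (f.graph 1)
  · exact Or.inl hx
  right
  -- choose intermediate points
  rw [accPt_iff_frequently] at hacc
  have hex : ∀ q : X × X, ∃ y, (q ∈ f.graph (n + 1) → (q.1, y) ∈ f.graph 1 ∧ (y, q.2) ∈ f.graph n) := by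
    intro q
    by_cases hq : q ∈ f.graph (n + 1)
    · obtain ⟨y, hy⟩ := graph_succ f n hq
      exact ⟨y, fun _ => hy⟩
    · exact ⟨q.1, fun h => absurd h hq⟩
  choose Y hY using hex
  set G : Filter (X × X) := 𝓝 (x, z) ⊓
    𝓟 {q | q ≠ (x, z) ∧ q ∈ f.graph (n + 1) ∩ Prod.snd ⁻¹' {z}} with hG
  haveI : G.NeBot := by
    rw [hG]
    exact frequently_mem_iff_neBot.1 hacc
  obtain ⟨𝒰, h𝒰⟩ := exists_ultrafilter_le G
  have hfst : Tendsto (Prod.fst : X × X → X) 𝒰 (𝓝 x) :=
    (continuous_fst.tendsto (x, z)).mono_left (h𝒰.trans inf_le_left)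
  have hmem : ∀ᶠ q in (𝒰 : Filter (X × X)), q ≠ (x, z) ∧ q ∈ f.graph (n + 1) ∩ Prod.snd ⁻¹' {z} :=
    h𝒰 (mem_inf_of_right (mem_principal_self _))
  obtain ⟨y, -, hy⟩ := isCompact_univ.ultrafilter_le_nhds (𝒰.map Y) (by simp)
  have hYt : Tendsto Y 𝒰 (𝓝 y) := hy
  have hcl1 : (x, y) ∈ f.graph 1 := by
    have h1 : Tendsto (fun q : X × X => (q.1, Y q)) 𝒰 (𝓝 (x, y)) := hfst.prodMk_nhds hYt
    exact isClosed_closure.mem_of_tendsto h1 (hmem.mono fun q hq => (hY q hq.2.1).1)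
  have hcl2 : (y, z) ∈ f.graph n := by
    have h1 : Tendsto (fun q : X × X => (Y q, z)) 𝒰 (𝓝 (y, z)) := hYt.prodMk_nhds tendsto_const_nhds
    refine isClosed_closure.mem_of_tendsto h1 (hmem.mono fun q hq => ?_)
    have h2 := (hY q hq.2.1).2
    have h3 : q.2 = z := hq.2.2
    rwa [h3] at h2
  have hnotacc : ¬ AccPt (x, y) (𝓟 (f.graph 1 ∩ Prod.snd ⁻¹' {y})) := by
    intro h
    exact hx ⟨(x, y), ⟨hcl1, h⟩, rfl⟩
  refine ⟨(x, y), ⟨hcl1, hnotacc, ⟨(y, z), ⟨hcl2, ?_⟩, rfl⟩⟩, rfl⟩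
  -- (y, z) is an accumulation point
  rcases 𝒰.em (fun q => Y q = y) with hc | hc
  · exfalso
    apply hnotacc
    rw [accPt_iff_frequently]
    have h1 : Tendsto (fun q : X × X => (q.1, y)) 𝒰 (𝓝 (x, y)) :=
      hfst.prodMk_nhds tendsto_const_nhds
    refine h1.frequently (Eventually.frequently ?_)
    filter_upwards [hmem, hc] with q hq hqy
    refine ⟨?_, ?_, rfl⟩
    · intro heq
      apply hq.1
      have h3 : q.2 = z := hq.2.2
      exact Prod.ext (Prod.ext_iff.1 heq).1 h3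
    · have := (hY q hq.2.1).1
      rwa [hqy] at this
  · rw [accPt_iff_frequently]
    have h1 : Tendsto (fun q : X × X => (Y q, z)) 𝒰 (𝓝 (y, z)) := hYt.prodMk_nhds tendsto_const_nhds
    refine h1.frequently (Eventually.frequently ?_)
    filter_upwards [hmem, hc] with q hq hqy
    refine ⟨?_, ?_, rfl⟩
    · intro heq
      exact hqy (Prod.ext_iff.1 heq).1
    · have h2 := (hY q hq.2.1).2
      have h3 : q.2 = z := hq.2.2
      rwa [h3] at h2

lemma graph_one (f : DominantMeromorphic k X) :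
    f.graph 1 = closure {q : X × X | q.1 ∈ f.dom ∧ q.2 = f.toFun q.1} := by
  unfold DominantMeromorphic.graph DominantMeromorphic.iterDom
  congr 1
  ext q
  constructor
  · rintro ⟨h1, h2⟩
    exact ⟨h1 0 (by omega), h2⟩
  · rintro ⟨h1, h2⟩
    refine ⟨?_, h2⟩
    intro j hj
    have : j = 0 := by omega
    subst this
    exact h1

/-- The iterates are defined on dense open sets. -/
lemma iterDom_open_dense (f : DominantMeromorphic k X) (n : ℕ) :
    IsOpen (f.iterDom n) ∧ Dense (f.iterDom n) := by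
  induction n with
  | zero =>
    have : f.iterDom 0 = univ := by
      ext x
      simp [DominantMeromorphic.iterDom]
    rw [this]
    exact ⟨isOpen_univ, dense_univ⟩
  | succ n ih =>
    have hset : f.iterDom (n + 1) = f.dom ∩ f.toFun ⁻¹' (f.iterDom n) := by
      ext x
      constructor
      · intro hx
        refine ⟨hx 0 (by omega), fun j hj => ?_⟩
        have := hx (j + 1) (by omega)
        rwa [Function.iterate_succ_apply] at this
      · rintro ⟨h0, hx⟩ j hj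
        rcases Nat.eq_zero_or_pos j with rfl | hj0
        · exact h0
        · obtain ⟨i, rfl⟩ := Nat.exists_eq_succ_of_ne_zero hj0.ne'
          rw [Nat.succ_eq_add_one, Function.iterate_succ_apply]
          exact hx i (by omega)
    constructor
    · rw [hset]
      exact f.holo.continuousOn.isOpen_inter_preimage f.isOpen_dom ih.1
    · rw [dense_iff_inter_open]
      intro O hO hOne
      have h1 : (O ∩ f.dom).Nonempty := f.dense_dom.inter_open_nonempty O hO hOne
      obtain ⟨b, hb⟩ := f.dominant (O ∩ f.dom) (hO.inter f.isOpen_dom) h1 inter_subset_right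
      obtain ⟨c, hc, hcn⟩ := ih.2.inter_open_nonempty _ isOpen_interior ⟨b, hb⟩
      obtain ⟨x, ⟨hxO, hxd⟩, rfl⟩ := interior_subset hc
      refine ⟨x, hxO, ?_⟩
      rw [hset]
      exact ⟨hxd, hcn⟩

end proofs

/-- **Critical sets of iterates.** Let `X` be a compact complex manifold of dimension `k` and `f` a
dominant meromorphic self-map of `X`. If `π₁(C_f)` has codimension at least `p`, then `π₁(C_{fⁿ})`
has codimension at least `p` for every `n ≥ 1`. (The iterate `fⁿ` is defined and holomorphic on a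
dense open set, and its graph is the closure of the graph over that set.) -/
theorem result {k : ℕ} {X : Type*} [TopologicalSpace X] [T2Space X] [CompactSpace X]
    [ChartedSpace (EuclideanSpace ℂ (Fin k)) X]
    [IsManifold 𝓘(ℂ, EuclideanSpace ℂ (Fin k)) ω X]
    (f : DominantMeromorphic k X) (p : ℕ)
    (hp : CodimGE k (Prod.fst '' critSet (f.graph 1)) p) (n : ℕ) (hn : 1 ≤ n) :
    (IsOpen (f.iterDom n) ∧ Dense (f.iterDom n)) ∧
      CodimGE k (Prod.fst '' critSet (f.graph n)) p := by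
  haveI : SecondCountableTopology X :=
    ChartedSpace.secondCountable_of_sigmaCompact (EuclideanSpace ℂ (Fin k)) X
  refine ⟨iterDom_open_dense f n, ?_⟩
  induction n, hn using Nat.le_induction with
  | base => exact hp
  | succ n hn ih =>
    intro x
    have hle : (2 * (p : ℝ≥0∞)) ≤ 2 * (k : ℝ≥0∞) := le_trans (le_add_self) (hp x)
    have hfin : (2 * (p : ℝ≥0∞)) ≠ ⊤ := ENNReal.mul_ne_top (by simp) (by simp)
    have conv : ∀ D : ℝ≥0∞, D + 2 * (p : ℝ≥0∞) ≤ 2 * (k : ℝ≥0∞) ↔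
        D ≤ 2 * (k : ℝ≥0∞) - 2 * (p : ℝ≥0∞) := fun D =>
      (ENNReal.le_sub_iff_add_le_right hfin hle).symm
    have hΓ : IsAnalyticSubset
        ((𝓘(ℂ, EuclideanSpace ℂ (Fin k))).prod 𝓘(ℂ, EuclideanSpace ℂ (Fin k))) (f.graph 1) := by
      rw [graph_one]
      exact f.analytic
    have hg := global_dim hΓ (Z := Prod.fst '' critSet (f.graph n))
      (fun y => (conv _).1 (ih y)) x
    rw [conv]
    refine le_trans (dimH_mono (image_mono (inter_subset_inter_left _ (crit_succ f n)))) ?_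
    rw [union_inter_distrib_right, image_union, dimH_union]
    exact max_le ((conv _).1 (hp x)) hg

end Pool.Agent.Results.MP_0e2c99_an.CriticalSets
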